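import Mathlib

/-! # Integral polynomials in several variables: growth, reductions, number of zeros -/

set_option autoImplicit false

namespace Pool.Agent.N141.TS

open Finset MvPolynomial

/-- growth -/
theorem growth {r : ℕ} (A : MvPolynomial (Fin r) ℤ) : ∃ (C : ℝ) (m : ℕ), 1 ≤ C ∧
    ∀ (v : Fin r → ℤ) (X : ℝ), 1 ≤ X → (∀ i, |(v i : ℝ)| ≤ X) → |((eval v A : ℤ) : ℝ)| ≤ C * X ^ m := by
  induction A using MvPolynomial.induction_on with
  | C a =>
    refine ⟨max 1 |(a : ℝ)|, 0, le_max_left _ _, fun v X _ _ => ?_⟩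
    rw [eval_C, pow_zero, mul_one]
    exact le_max_right _ _
  | add p q hp hq =>
    obtain ⟨C₁, m₁, h1, H1⟩ := hp
    obtain ⟨C₂, m₂, h2, H2⟩ := hq
    refine ⟨C₁ + C₂, max m₁ m₂, by linarith, fun v X hX hv => ?_⟩
    rw [map_add]
    push_cast
    refine (abs_add_le _ _).trans ?_
    rw [add_mul]
    refine add_le_add ((H1 v X hX hv).trans ?_) ((H2 v X hX hv).trans ?_)
    · exact mul_le_mul_of_nonneg_left (pow_le_pow_right₀ hX (le_max_left _ _)) (by linarith)
    · exact mul_le_mul_of_nonneg_left (pow_le_pow_right₀ hX (le_max_right _ _)) (by linarith)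
  | mul_X p i hp =>
    obtain ⟨C₁, m₁, h1, H1⟩ := hp
    refine ⟨C₁, m₁ + 1, h1, fun v X hX hv => ?_⟩
    rw [map_mul, eval_X]
    push_cast
    rw [abs_mul, pow_succ, ← mul_assoc]
    exact mul_le_mul (H1 v X hX hv) (hv i) (abs_nonneg _) (by positivity)

/-- evaluation and reduction -/
theorem eval_red {r : ℕ} (A : MvPolynomial (Fin r) ℤ) (p : ℕ) (v : Fin r → ℤ) :
    aeval (fun i => (v i : ZMod p)) A = ((eval v A : ℤ) : ZMod p) := by
  have h := MvPolynomial.aeval_algebraMap_apply (R := ℤ) (A := ℤ) (ZMod p) v A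
  have e : (fun i => (v i : ZMod p)) = (algebraMap ℤ (ZMod p)) ∘ v := by
    funext i
    simp
  rw [e, h, eq_intCast (algebraMap ℤ (ZMod p))]
  congr 1

/-- few zeros modulo large primes -/
theorem few_zeros {r : ℕ} {D : MvPolynomial (Fin r) ℤ} (hD : D ≠ 0) : ∃ p₀ : ℕ, ∀ p : ℕ, p.Prime →
    p₀ < p → ({ρ : Fin r → ZMod p | aeval ρ D = 0}.ncard : ℝ) / (p : ℝ) ^ r ≤
      (D.totalDegree : ℝ) / p := by
  classical
  obtain ⟨m, hm⟩ : ∃ m, D.coeff m ≠ 0 := by
    by_contra hcon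
    push Not at hcon
    exact hD (MvPolynomial.ext _ _ fun m => by simp [hcon m])
  refine ⟨(D.coeff m).natAbs, fun p hp hlt => ?_⟩
  have : Fact p.Prime := ⟨hp⟩
  set D' : MvPolynomial (Fin r) (ZMod p) := MvPolynomial.map (Int.castRingHom (ZMod p)) D with hD'
  have hne : D' ≠ 0 := by
    intro h0
    have h1 := congrArg (MvPolynomial.coeff m) h0
    rw [hD', MvPolynomial.coeff_map, MvPolynomial.coeff_zero] at h1
    simp only [eq_intCast] at h1
    rw [ZMod.intCast_zmod_eq_zero_iff_dvd] at h1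
    have h2 := Int.natAbs_dvd_natAbs.2 h1
    rw [Int.natAbs_natCast] at h2
    have h3 := Nat.le_of_dvd (Int.natAbs_pos.2 hm) h2
    omega
  have hsz := MvPolynomial.schwartz_zippel_totalDegree hne (Finset.univ : Finset (ZMod p))
  rw [Finset.card_univ, ZMod.card] at hsz
  have hset : {ρ : Fin r → ZMod p | aeval ρ D = 0}.ncard =
      (Finset.filter (fun f : Fin r → ZMod p => eval f D' = 0)
        (Fintype.piFinset fun _ => (Finset.univ : Finset (ZMod p)))).card := by
    rw [← Set.ncard_coe_finset]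
    congr 1
    ext ρ
    simp only [Set.mem_ofPred_eq, Finset.coe_filter, Fintype.mem_piFinset, Finset.mem_univ,
      implies_true, true_and]
    rw [hD', MvPolynomial.eval_map]
    rfl
  rw [hset]
  have h2 : (((Finset.filter (fun f : Fin r → ZMod p => eval f D' = 0)
        (Fintype.piFinset fun _ => (Finset.univ : Finset (ZMod p)))).card : ℚ≥0) / (p : ℚ≥0) ^ r : ℚ≥0) ≤
        (D.totalDegree : ℚ≥0) / p := by
    refine hsz.trans ?_
    have : D'.totalDegree ≤ D.totalDegree := by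
      rw [MvPolynomial.totalDegree, MvPolynomial.totalDegree]
      exact Finset.sup_mono (MvPolynomial.support_map_subset _ _)
    gcongr
  have h3 : (((((Finset.filter (fun f : Fin r → ZMod p => eval f D' = 0)
        (Fintype.piFinset fun _ => (Finset.univ : Finset (ZMod p)))).card : ℚ≥0) / (p : ℚ≥0) ^ r :
        ℚ≥0) : ℚ) : ℝ) ≤ (((((D.totalDegree : ℚ≥0) / p : ℚ≥0)) : ℚ) : ℝ) := by
    exact_mod_cast h2
  push_cast at h3
  exact h3

/-- the poles of the universal family `y² = x³ + X₀ x + X₁` modulo `p` -/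
theorem wei {p : ℕ} (hp : p.Prime) (h5 : 5 ≤ p) :
    p - 1 ≤ {ρ : Fin 2 → ZMod p | aeval ρ (C 4 * X 0 ^ 3 + C 27 * X 1 ^ 2 : MvPolynomial (Fin 2) ℤ) = 0 ∧
      aeval ρ (C 6912 * X 0 ^ 3 : MvPolynomial (Fin 2) ℤ) ≠ 0}.ncard := by
  classical
  have : Fact p.Prime := ⟨hp⟩
  have h2 : (2 : ZMod p) ≠ 0 := by
    intro h
    have h' : ((2 : ℕ) : ZMod p) = 0 := by exact_mod_cast h
    rw [ZMod.natCast_eq_zero_iff] at h'
    exact absurd (Nat.le_of_dvd (by norm_num) h') (by omega)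
  have h3 : (3 : ZMod p) ≠ 0 := by
    intro h
    have h' : ((3 : ℕ) : ZMod p) = 0 := by exact_mod_cast h
    rw [ZMod.natCast_eq_zero_iff] at h'
    exact absurd (Nat.le_of_dvd (by norm_num) h') (by omega)
  set φ : ZMod p → (Fin 2 → ZMod p) := fun s => ![-3 * s ^ 2, 2 * s ^ 3] with hφ
  have hinj : Set.InjOn φ {s | s ≠ 0} := by
    intro s hs t ht hst
    have e0 := congrFun hst 0
    have e1 := congrFun hst 1
    simp only [hφ, Matrix.cons_val_zero, Matrix.cons_val_one] at e0 e1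
    have e0' : s ^ 2 = t ^ 2 := by
      have h3' : (-3 : ZMod p) ≠ 0 := neg_ne_zero.2 h3
      exact mul_left_cancel₀ h3' e0
    have e1' : s ^ 3 = t ^ 3 := mul_left_cancel₀ h2 e1
    have e2 : s ^ 2 * s = s ^ 2 * t := by
      calc s ^ 2 * s = s ^ 3 := by ring
        _ = t ^ 3 := e1'
        _ = t ^ 2 * t := by ring
        _ = s ^ 2 * t := by rw [e0']
    exact mul_left_cancel₀ (pow_ne_zero 2 hs) e2
  have hc : ({s : ZMod p | s ≠ 0}).ncard = p - 1 := by
    have e : {s : ZMod p | s ≠ 0} = ((Finset.univ.erase 0 : Finset (ZMod p)) : Set (ZMod p)) := by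
      ext s
      simp
    rw [e, Set.ncard_coe_finset, Finset.card_erase_of_mem (Finset.mem_univ _), Finset.card_univ,
      ZMod.card]
  rw [← hc, ← hinj.ncard_image]
  refine Set.ncard_le_ncard ?_ (Set.toFinite _)
  rintro _ ⟨s, hs, rfl⟩
  have hs' : s ≠ 0 := hs
  refine ⟨?_, ?_⟩
  · simp only [hφ, map_add, map_mul, map_pow, aeval_X, Matrix.cons_val_zero,
      Matrix.cons_val_one, eq_intCast, Int.cast_ofNat, map_ofNat]
    ring
  · simp only [hφ, map_mul, map_pow, aeval_X, Matrix.cons_val_zero,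
      eq_intCast, Int.cast_ofNat, map_ofNat]
    have e : (6912 : ZMod p) * (-3 * s ^ 2) ^ 3 = -(2 ^ 8 * 3 ^ 6 * s ^ 6) := by ring
    rw [e]
    exact neg_ne_zero.2 (mul_ne_zero (mul_ne_zero (pow_ne_zero _ h2) (pow_ne_zero _ h3))
      (pow_ne_zero _ hs'))

end Pool.Agent.N141.TS
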