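import Pool.Agent.N141.TS.Mon

/-! # Counting monic polynomials with repeated roots -/

set_option autoImplicit false

namespace Pool.Agent.N141.TS

open Polynomial Finset

section
variable {p : ℕ} [Fact p.Prime] {k j : ℕ}

/-- the coefficients of `(X - a) ^ j * mp w` -/
noncomputable def Ph (p k j : ℕ) [Fact p.Prime] (z : ZMod p × (Fin (k - j) → ZMod p)) :
    Fin k → ZMod p := fun i => ((X - C z.1) ^ j * mp z.2).coeff i

theorem mp_Ph (hj : j ≤ k) (z : ZMod p × (Fin (k - j) → ZMod p)) :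
    mp (Ph p k j z) = (X - C z.1) ^ j * mp z.2 := by
  have h1 : ((X - C z.1) ^ j * mp z.2).Monic := ((monic_X_sub_C z.1).pow j).mul (mp_monic _)
  refine mp_surj h1 ?_
  rw [((monic_X_sub_C z.1).pow j).natDegree_mul (mp_monic _), mp_natDegree,
    (monic_X_sub_C z.1).natDegree_pow, natDegree_X_sub_C]
  omega

theorem image_Ph (hj : j ≤ k) (ρ : Fin k → ZMod p) :
    (∃ z, Ph p k j z = ρ) ↔ ∃ a : ZMod p, (X - C a) ^ j ∣ mp ρ := by
  constructor
  · rintro ⟨z, rfl⟩
    exact ⟨z.1, by rw [mp_Ph hj]; exact dvd_mul_right _ _⟩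
  · rintro ⟨a, G, hG⟩
    have hm : ((X - C a) ^ j * G).Monic := by rw [← hG]; exact mp_monic _
    have hGm : G.Monic := ((monic_X_sub_C a).pow j).of_mul_monic_left hm
    have hGd : G.natDegree = k - j := by
      have h1 := congrArg natDegree hG
      rw [mp_natDegree, ((monic_X_sub_C a).pow j).natDegree_mul hGm,
        (monic_X_sub_C a).natDegree_pow, natDegree_X_sub_C] at h1
      omega
    refine ⟨(a, fun i => G.coeff i), ?_⟩
    apply mp_inj
    rw [mp_Ph hj, hG]
    change (X - C a) ^ j * mp (fun i : Fin (k - j) => G.coeff i) = _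
    rw [mp_surj hGm hGd]

theorem card_le (hj : j ≤ k) :
    {ρ : Fin k → ZMod p | ∃ a : ZMod p, (X - C a) ^ j ∣ mp ρ}.ncard ≤ p ^ (k - j + 1) := by
  classical
  have e : {ρ : Fin k → ZMod p | ∃ a : ZMod p, (X - C a) ^ j ∣ mp ρ} =
      ((Finset.univ.image (Ph p k j) : Finset (Fin k → ZMod p)) : Set _) := by
    ext ρ
    rw [Set.mem_ofPred_eq, ← image_Ph hj]
    simp
  rw [e, Set.ncard_coe_finset]
  refine Finset.card_image_le.trans ?_
  rw [Finset.card_univ, Fintype.card_prod, ZMod.card, Fintype.card_fun, ZMod.card, Fintype.card_fin,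
    pow_succ, mul_comm]

theorem le_card (hj : j ≤ k) (hj1 : 1 ≤ j) :
    p ^ (k - j + 1) ≤ k * {ρ : Fin k → ZMod p | ∃ a : ZMod p, (X - C a) ^ j ∣ mp ρ}.ncard := by
  classical
  have e : {ρ : Fin k → ZMod p | ∃ a : ZMod p, (X - C a) ^ j ∣ mp ρ} =
      ((Finset.univ.image (Ph p k j) : Finset (Fin k → ZMod p)) : Set _) := by
    ext ρ
    rw [Set.mem_ofPred_eq, ← image_Ph hj]
    simp
  rw [e, Set.ncard_coe_finset]
  have h1 : p ^ (k - j + 1) = (Finset.univ : Finset (ZMod p × (Fin (k - j) → ZMod p))).card := by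
    rw [Finset.card_univ, Fintype.card_prod, ZMod.card, Fintype.card_fun, ZMod.card,
      Fintype.card_fin, pow_succ, mul_comm]
  rw [h1]
  refine Finset.card_le_mul_card_image _ _ fun ρ _ => ?_
  have h2 : (Finset.univ.filter fun z => Ph p k j z = ρ).card ≤ (mp ρ).roots.toFinset.card := by
    refine Finset.card_le_card_of_injOn (fun z => z.1) ?_ ?_
    · intro z hz
      rw [Finset.mem_coe, Finset.mem_filter] at hz
      rw [Finset.mem_coe, Multiset.mem_toFinset, mem_roots (mp_monic ρ).ne_zero, ← hz.2, mp_Ph hj,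
        IsRoot.def, eval_mul, eval_pow]
      simp [show j ≠ 0 by omega]
    · intro z hz z' hz' hzz
      rw [Finset.mem_coe, Finset.mem_filter] at hz hz'
      have h3 : mp (Ph p k j z) = mp (Ph p k j z') := by rw [hz.2, hz'.2]
      simp only at hzz
      rw [mp_Ph hj, mp_Ph hj, hzz] at h3
      have h4 := mul_left_cancel₀ (pow_ne_zero j (X_sub_C_ne_zero z'.1)) h3
      exact Prod.ext hzz (mp_inj h4)
  refine h2.trans ((Multiset.toFinset_card_le _).trans ((card_roots' _).trans ?_))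
  rw [mp_natDegree]

/-- many monic polynomials with a double root and no root of multiplicity `g + 2` -/
theorem many {g : ℕ} (hg : 1 ≤ g) (hk : 3 ≤ k) (hp : 2 * k ≤ p) :
    p ^ (k - 1) ≤ 2 * k * {ρ : Fin k → ZMod p | (mp ρ).discr = 0 ∧
      ∀ a : ZMod p, ¬ (X - C a) ^ (g + 2) ∣ mp ρ}.ncard := by
  classical
  have hp0 : p.Prime := Fact.out
  have h2 := le_card (p := p) (k := k) (j := 2) (by omega) (by norm_num)
  have h3 := card_le (p := p) (k := k) (j := 3) hk
  rw [show k - 2 + 1 = k - 1 by omega] at h2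
  rw [show k - 3 + 1 = k - 2 by omega] at h3
  set A := {ρ : Fin k → ZMod p | ∃ a : ZMod p, (X - C a) ^ 2 ∣ mp ρ} with hA
  set B := {ρ : Fin k → ZMod p | ∃ a : ZMod p, (X - C a) ^ 3 ∣ mp ρ} with hB
  have hsub : A \ B ⊆ {ρ : Fin k → ZMod p | (mp ρ).discr = 0 ∧
      ∀ a : ZMod p, ¬ (X - C a) ^ (g + 2) ∣ mp ρ} := by
    rintro ρ ⟨⟨a, ha⟩, hρ⟩
    refine ⟨discr_eq_zero_of (mp_monic ρ) ?_ ha, fun b hb => hρ ⟨b, ?_⟩⟩
    · rw [mp_natDegree, Ne, ZMod.natCast_eq_zero_iff]
      intro hd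
      have := Nat.le_of_dvd (by omega) hd
      omega
    · exact (pow_dvd_pow _ (by omega)).trans hb
  have h4 : A.ncard ≤ (A \ B).ncard + B.ncard := by
    refine (Set.ncard_le_ncard (fun x hx => ?_) (Set.toFinite _)).trans (Set.ncard_union_le (A \ B) B)
    by_cases hxB : x ∈ B
    · exact Or.inr hxB
    · exact Or.inl ⟨hx, hxB⟩
  have h5 := Set.ncard_le_ncard hsub (Set.toFinite _)
  have h6 : 2 * (k * p ^ (k - 2)) ≤ p ^ (k - 1) := by
    have e : p ^ (k - 1) = p * p ^ (k - 2) := by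
      rw [← pow_succ']
      congr 1
      omega
    rw [e, ← mul_assoc]
    exact Nat.mul_le_mul_right _ hp
  have h7 : k * A.ncard ≤ k * ({ρ : Fin k → ZMod p | (mp ρ).discr = 0 ∧
      ∀ a : ZMod p, ¬ (X - C a) ^ (g + 2) ∣ mp ρ}.ncard + p ^ (k - 2)) :=
    Nat.mul_le_mul_left _ (by omega)
  nlinarith

end

end Pool.Agent.N141.TS
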