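import Pool.Agent.N141.TS.Thin
import Pool.Agent.Y733.FF.Main

/-! # Frey's inequality from one large pole of the invariant -/

set_option autoImplicit false
set_option linter.unusedSectionVars false

namespace Pool.Agent.N141.TS

open NumberField IsDedekindDomain Height Pool.Agent.H691R3 Pool.Agent.W223.AK Pool.Agent.Y733.LS
open Pool.Agent.TH876.FH (GoodAt IsPeriod arch Hj_height)
open Pool.Agent.Y733.FF

section
variable (K : Type) [Field K] [NumberField K]

/-- a place above `p` -/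
theorem exists_above {p : ℕ} (hp : p.Prime) : ∃ v : HeightOneSpectrum (𝓞 K),
    (p : 𝓞 K) ∈ v.asIdeal := by
  have hne : Ideal.span {(p : 𝓞 K)} ≠ ⊤ := by
    intro h
    rw [Ideal.span_singleton_eq_top] at h
    have h1 := (NumberField.isUnit_iff_norm (K := K)).1 h
    have h2 : |(RingOfIntegers.norm ℚ (p : 𝓞 K) : ℚ)| = (p : ℚ) ^ Module.finrank ℚ K := by
      rw [RingOfIntegers.coe_norm]
      have h3 : (((p : 𝓞 K)) : K) = algebraMap ℚ K p := by simp
      rw [h3, Algebra.norm_algebraMap, abs_of_nonneg (by positivity)]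
    rw [h2] at h1
    have h3 : (1 : ℚ) < (p : ℚ) ^ Module.finrank ℚ K :=
      one_lt_pow₀ (by exact_mod_cast hp.one_lt) Module.finrank_pos.ne'
    linarith
  obtain ⟨M, hM, hle⟩ := Ideal.exists_le_maximal _ hne
  have hmem : (p : 𝓞 K) ∈ M := hle (Ideal.mem_span_singleton_self _)
  refine ⟨⟨M, hM.isPrime, ?_⟩, hmem⟩
  rintro rfl
  rw [Ideal.mem_bot] at hmem
  exact hp.ne_zero (by exact_mod_cast hmem)

variable {K}

theorem not_mem_of {p : ℕ} (hp : p.Prime) {v : HeightOneSpectrum (𝓞 K)}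
    (hv : (p : 𝓞 K) ∈ v.asIdeal) {x : ℤ} (hx : ¬ (p : ℤ) ∣ x) : (x : 𝓞 K) ∉ v.asIdeal := by
  intro hmem
  have hcop : IsCoprime (p : ℤ) x := (Nat.prime_iff_prime_int.1 hp).coprime_iff_not_dvd.2 hx
  obtain ⟨a, b, hab⟩ := hcop
  have h1 : (1 : 𝓞 K) ∈ v.asIdeal := by
    have e : (1 : 𝓞 K) = (a : 𝓞 K) * (p : 𝓞 K) + (b : 𝓞 K) * (x : 𝓞 K) := by
      have := congrArg (fun z : ℤ => (z : 𝓞 K)) hab
      push_cast at this
      exact this.symm
    rw [e]
    exact v.asIdeal.add_mem (v.asIdeal.mul_mem_left _ hv) (v.asIdeal.mul_mem_left _ hmem)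
  exact v.isPrime.ne_top ((Ideal.eq_top_iff_one _).2 h1)

theorem val_int {p : ℕ} (hp : p.Prime) {v : HeightOneSpectrum (𝓞 K)}
    (hv : (p : 𝓞 K) ∈ v.asIdeal) {x : ℤ} (hx : ¬ (p : ℤ) ∣ x) : v.valuation K (x : K) = 1 := by
  have h1 : v.valuation K (algebraMap (𝓞 K) K (x : 𝓞 K)) ≤ 1 := v.valuation_le_one _
  have h2 : ¬ v.valuation K (algebraMap (𝓞 K) K (x : 𝓞 K)) < 1 := by
    rw [v.valuation_lt_one_iff_mem]
    exact not_mem_of hp hv hx
  have h3 : (algebraMap (𝓞 K) K (x : 𝓞 K)) = (x : K) := by simp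
  rw [h3] at h1 h2
  exact le_antisymm h1 (not_lt.1 h2)

theorem val_lt {p : ℕ} {v : HeightOneSpectrum (𝓞 K)}
    (hv : (p : 𝓞 K) ∈ v.asIdeal) {y : ℤ} (hy : (p : ℤ) ∣ y) : v.valuation K (y : K) < 1 := by
  have h3 : (algebraMap (𝓞 K) K (y : 𝓞 K)) = (y : K) := by simp
  rw [← h3, v.valuation_lt_one_iff_mem]
  obtain ⟨k, rfl⟩ := hy
  push_cast
  exact v.asIdeal.mul_mem_right _ hv

theorem le_norm {p : ℕ} (hp : p.Prime) {v : HeightOneSpectrum (𝓞 K)}
    (hv : (p : 𝓞 K) ∈ v.asIdeal) : (p : ℝ) ≤ Nv v := by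
  have h1 : p ∣ Ideal.absNorm v.asIdeal := by
    by_contra hcon
    have h2 : ¬ (p : ℤ) ∣ ((Ideal.absNorm v.asIdeal : ℕ) : ℤ) := by exact_mod_cast hcon
    apply not_mem_of hp hv h2
    have := Ideal.absNorm_mem v.asIdeal
    exact_mod_cast this
  have h2 : 0 < Ideal.absNorm v.asIdeal := by
    have := NumberField.HeightOneSpectrum.one_lt_absNorm v
    omega
  have h3 := Nat.le_of_dvd h2 h1
  unfold Nv
  exact_mod_cast h3

/-- one large pole: the conductor is large -/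
theorem log_le_cond (E : WeierstrassCurve K) (hE : E.Δ ≠ 0) {x y : ℤ} (hy0 : y ≠ 0)
    (hj : E.c₄ ^ 3 / E.Δ = (x : K) / y) {p : ℕ} (hp : p.Prime) (h5 : 5 ≤ p) (hy : (p : ℤ) ∣ y)
    (hx : ¬ (p : ℤ) ∣ x) : Real.log p ≤ Real.log (multN E) + Real.log (addN E) := by
  classical
  obtain ⟨v, hv⟩ := exists_above K hp
  have hpN := le_norm hp hv
  have hp0 : (0 : ℝ) < p := by exact_mod_cast hp.pos
  have hlog : Real.log p ≤ Real.log (Nv v) := Real.log_le_log hp0 hpN
  have hbad : ¬ GoodAt v E := by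
    intro hg
    have h1 := good_int v E hE hg
    rw [hj, fv_le_one_iff, map_div₀, val_int hp hv hx] at h1
    have h2 := val_lt hv hy
    have h3 : v.valuation K (y : K) ≠ 0 := (v.valuation K).ne_zero_iff.2 (by exact_mod_cast hy0)
    have h4 : (1 : WithZero (Multiplicative ℤ)) ≤ v.valuation K (y : K) := by
      rw [div_le_iff₀ (zero_lt_iff.2 h3), one_mul] at h1
      exact h1
    exact absurd h2 (not_lt.2 h4)
  have h6 : v.valuation K 6 = 1 := by
    have hnd : ¬ (p : ℤ) ∣ (6 : ℤ) := by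
      intro hd
      have h7 : p ∣ 6 := by exact_mod_cast hd
      have h8 : p ∣ 2 * 3 := h7
      rcases (Nat.Prime.dvd_mul hp).1 h8 with h9 | h9
      · have := Nat.le_of_dvd (by norm_num) h9
        omega
      · have := Nat.le_of_dvd (by norm_num) h9
        omega
    have := val_int hp hv hnd
    exact_mod_cast this
  have hmw : mw v E ≤ ∑ᶠ v : HeightOneSpectrum (𝓞 K), mw v E :=
    single_le_finsum v (supp_mw E hE) fun w => mw_nonneg w E
  have haw : aw v E ≤ ∑ᶠ v : HeightOneSpectrum (𝓞 K), aw v E :=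
    single_le_finsum v (supp_aw E hE) fun w => aw_nonneg w E
  have hm0 := mw_nonneg v E
  have ha0 := aw_nonneg v E
  rw [log_multN E hE, log_addN E hE]
  by_cases hs : SemiAt v E
  · have h7 : mw v E = Real.log (Nv v) := by
      unfold mw
      exact if_pos ⟨hbad, hs, h6⟩
    linarith
  · have h7 : aw v E = Real.log (Nv v) := by
      unfold aw
      exact if_pos ⟨hs, h6⟩
    linarith

theorem fin_nat_le (v : FinitePlace K) (n : ℕ) : v (n : K) ≤ 1 := by
  have h := (fv_Na (K := K) v.maximalIdeal).nat n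
  have e : FinitePlace.mk v.maximalIdeal = v := FinitePlace.mk_maximalIdeal v
  unfold fv at h
  rw [e] at h
  exact h

variable (K)

/-- the height of an integer -/
theorem ht_int {x : ℤ} (hx : x ≠ 0) :
    logHeight₁ (x : K) = Module.finrank ℚ K * Real.log |(x : ℝ)| := by
  obtain ⟨n, hn, hxn⟩ : ∃ n : ℕ, 1 ≤ n ∧ (x = n ∨ x = -n) := by
    refine ⟨x.natAbs, by have := Int.natAbs_pos.mpr hx; omega, Int.natAbs_eq x⟩
  have key : logHeight₁ ((n : ℕ) : K) = Module.finrank ℚ K * Real.log n := by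
    rw [NumberField.logHeight₁_eq]
    have h1 : ∑ v : InfinitePlace K, (v.mult : ℝ) * Real.posLog (v (n : K)) =
        Module.finrank ℚ K * Real.log n := by
      have h2 : ∀ v : InfinitePlace K, (v.mult : ℝ) * Real.posLog (v (n : K)) =
          v.mult * Real.log n := by
        intro v
        rw [InfinitePlace.map_natCast, Real.posLog_eq_log]
        rw [abs_of_nonneg (Nat.cast_nonneg n)]
        exact_mod_cast hn
      rw [Finset.sum_congr rfl fun v _ => h2 v, ← Finset.sum_mul]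
      congr 1
      exact_mod_cast InfinitePlace.sum_mult_eq (K := K)
    have h2 : ∑ᶠ v : FinitePlace K, Real.posLog (v (n : K)) = 0 := by
      have : ∀ v : FinitePlace K, Real.posLog (v (n : K)) = 0 := fun v => by
        rw [Real.posLog_eq_zero_iff, abs_of_nonneg (apply_nonneg _ _)]
        exact fin_nat_le v n
      simp [this]
    rw [h1, h2, add_zero]
  rcases hxn with rfl | rfl
  · rw [Int.cast_natCast, key, Int.cast_natCast, abs_of_nonneg (Nat.cast_nonneg n)]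
  · rw [Int.cast_neg, Int.cast_natCast, logHeight₁_neg, key, Int.cast_neg, Int.cast_natCast, abs_neg,
      abs_of_nonneg (Nat.cast_nonneg n)]

/-- the height of a quotient -/
theorem ht_le {x y : ℤ} (hx : x ≠ 0) (hy : y ≠ 0) {H : ℝ}
    (h1 : |(x : ℝ)| ≤ H) (h2 : |(y : ℝ)| ≤ H) :
    logHeight₁ ((x : K) / y) ≤ Module.finrank ℚ K * (2 * Real.log H) := by
  rw [div_eq_mul_inv]
  refine (logHeight₁_mul_le _ _).trans ?_
  rw [logHeight₁_inv, ht_int K hx, ht_int K hy, ← mul_add]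
  refine mul_le_mul_of_nonneg_left ?_ (Nat.cast_nonneg _)
  have hx0 : 0 < |(x : ℝ)| := abs_pos.mpr (by exact_mod_cast hx)
  have hy0 : 0 < |(y : ℝ)| := abs_pos.mpr (by exact_mod_cast hy)
  have h3 := Real.log_le_log hx0 h1
  have h4 := Real.log_le_log hy0 h2
  linarith

end

/-- **Frey's inequality** for all curves of an invariant with a large pole -/
theorem frey_big : ∃ C : ℝ, 0 < C ∧ ∀ (K : Type) [Field K] [NumberField K] (E : WeierstrassCurve K)
    (τ : InfinitePlace K → UpperHalfPlane) (σ : ℝ) (x y : ℤ) (p : ℕ), E.Δ ≠ 0 →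
    E.c₄ ^ 3 / E.Δ = (x : K) / y → IsPeriod (E.c₄ ^ 3 / E.Δ) τ → 0 ≤ σ → y ≠ 0 →
    p.Prime → 5 ≤ p → (p : ℤ) ∣ y → ¬ (p : ℤ) ∣ x →
    (∃ H : ℝ, |(x : ℝ)| ≤ H ∧ |(y : ℝ)| ≤ H ∧ 2 * Real.log H ≤ σ * Real.log p) →
    discSum E + ∑ w : InfinitePlace K, (w.mult : ℝ) * arch (τ w) ≤
      (5 + Module.finrank ℚ K * σ) * (Real.log (multN E) + Real.log (addN E)) +
        C * Module.finrank ℚ K := by
  obtain ⟨c, hc0, hc⟩ := arch_le
  have l6 : 0 < Real.log 6 := Real.log_pos (by norm_num)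
  refine ⟨c + 22 * Real.log 6, by positivity, ?_⟩
  intro K _ _ E τ σ x y p hE hj hτ hσ hy0 hp h5 hpy hpx hH
  obtain ⟨H, hxH, hyH, hle⟩ := hH
  have h1 := disc_sum_le E hE (δ := 0) le_rfl (by norm_num)
  have h2 := hc K _ τ hτ
  have h4 : ht (E.c₄ ^ 3 / E.Δ) =
      ∑ w : InfinitePlace K, (w.mult : ℝ) * Real.log (max (w (E.c₄ ^ 3 / E.Δ)) 1) +
      ∑ᶠ v : HeightOneSpectrum (𝓞 K), Real.log (max (FinitePlace.mk v (E.c₄ ^ 3 / E.Δ)) 1) := by
    rw [← Hj_height, logHeight_eq, ht_eq_Sa]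
  have h5' : ∑ᶠ v : Pr K, Real.log (max (fv v (E.c₄ ^ 3 / E.Δ)) 1) =
    ∑ᶠ v : HeightOneSpectrum (𝓞 K), Real.log (max (FinitePlace.mk v (E.c₄ ^ 3 / E.Δ)) 1) := rfl
  rw [h5'] at h1
  have hx0 : x ≠ 0 := by
    rintro rfl
    exact hpx (dvd_zero _)
  have h6 : ht (E.c₄ ^ 3 / E.Δ) ≤ Module.finrank ℚ K * (σ * Real.log p) := by
    have h7 : logHeight₁ (E.c₄ ^ 3 / E.Δ) = ht (E.c₄ ^ 3 / E.Δ) := by
      rw [logHeight_eq, ht_eq_Sa]
    rw [← h7, hj]
    exact (ht_le K hx0 hy0 hxH hyH).trans (mul_le_mul_of_nonneg_left hle (Nat.cast_nonneg _))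
  have h7 := log_le_cond E hE hy0 hj hp h5 hpy hpx
  have h8 := log_multN_nonneg E hE
  have h9 : 0 ≤ Real.log (addN E) := by
    rw [log_addN E hE]
    have : 0 ≤ ∑ᶠ v : Pr K, aw v E := finsum_nonneg fun v => aw_nonneg v E
    linarith
  have hn : (0 : ℝ) ≤ Module.finrank ℚ K := Nat.cast_nonneg _
  have h10 : (Module.finrank ℚ K : ℝ) * (σ * Real.log p) ≤
      Module.finrank ℚ K * σ * (Real.log (multN E) + Real.log (addN E)) := by
    rw [← mul_assoc]
    exact mul_le_mul_of_nonneg_left h7 (by positivity)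
  have h11 : 0 ≤ (1 + (0 : ℝ)) * sp (E.c₄ ^ 3 / E.Δ) := by
    have : 0 ≤ sp (E.c₄ ^ 3 / E.Δ) := by
      unfold sp
      refine finsum_nonneg fun v => ?_
      split_ifs
      · exact (log_Nv_pos v).le
      · exact le_rfl
    linarith
  nlinarith

end Pool.Agent.N141.TS
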