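import Pool.Agent.N141.TS.Thin
import Pool.Agent.N141.TS.Cnt
import Pool.Agent.TH4.HS.Glob

/-! # Hyperelliptic curves with coefficients in thin sequences -/

set_option autoImplicit false

namespace Pool.Agent.N141.TS

open Polynomial Finset NumberField IsDedekindDomain
open Pool.Agent.W318 Pool.Agent.TH4.HS
open Pool.Agent.Y722.HS (red)
open Pool.Agent.N666.TM (fl)

/-- the local condition -/
def HO (g m p : ℕ) : Set (Fin m → ZMod p) :=
  {ρ | (mp ρ).discr = 0 ∧ ∀ a : ZMod p, ¬ (X - C a) ^ (g + 2) ∣ mp ρ}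

theorem HO_mean {g m : ℕ} (hg : 1 ≤ g) (hm : 3 ≤ m) : MeanSet (HO g m) := by
  refine mean_of (δ := 1 / (2 * m)) (by positivity) (2 * m) fun p hp hlt => ?_
  have : Fact p.Prime := ⟨hp⟩
  have h := many (p := p) (k := m) hg hm hlt.le
  have hp0 : (0 : ℝ) < p := by exact_mod_cast hp.pos
  have hm0 : (0 : ℝ) < m := by exact_mod_cast (by omega : 0 < m)
  have h1 : (p : ℝ) ^ (m - 1) ≤ 2 * m * ((HO g m p).ncard : ℝ) := by
    unfold HO
    exact_mod_cast h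
  rw [div_mul_div_comm, one_mul, div_le_div_iff₀ (by positivity) (by positivity)]
  have e : (p : ℝ) ^ m = (p : ℝ) ^ (m - 1) * p := by
    rw [← pow_succ]
    congr 1
    omega
  rw [e]
  nlinarith

/-- the prime is bad -/
theorem bad_of {g m : ℕ} (hg : 2 ≤ g) (hm : m = 2 * g + 1 ∨ m = 2 * g + 2) {p : ℕ} (hp : p.Prime)
    (hp2 : p ≠ 2) {v : Fin m → ℤ} (hD : (mp v).discr ≠ 0) (hO : red p v ∈ HO g m p) :
    minExp g ((mp v).map (Int.castRingHom ℚ)) (vp p hp) ≠ 0 := by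
  intro h0
  have : Fact p.Prime := ⟨hp⟩
  have hF : IsHyp g ((mp v).map (Int.castRingHom ℚ)) := isHyp_of hm (mp_monic v) (mp_natDegree v) hD
  have hmap : (mp v).map (Int.castRingHom (ZMod p)) = mp (red p v) := by
    rw [mp_map]
    rfl
  have hdisc : (p : ℤ) ∣ (mp v).discr := by
    have h1 := discr_map_monic (Int.castRingHom (ZMod p)) (mp_monic v)
    rw [hmap, hO.1] at h1
    rw [← ZMod.intCast_zmod_eq_zero_iff_dvd]
    simpa using h1.symm
  have hpv := pv_vp p hp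
  obtain ⟨⟨r, hr⟩, -⟩ := local_key (vp p hp) hg hm (mp_monic v) (mp_natDegree v) (by rw [hpv]; exact hp2)
    hF h0 (by rw [hpv]; exact hdisc)
  apply hO.2 ((r : ℤ) : ZMod p)
  rw [← hmap, X_sub_C_pow_dvd_iff, ← taylor_apply, X_pow_dvd_iff]
  intro d hd
  rw [taylor_coeff, ← hasseDeriv_map', eval_map, eval₂_at_intCast]
  have h2 := hr d (by omega)
  rw [hpv] at h2
  have h3 : (p : ℤ) ∣ (hasseDeriv d (mp v)).eval r :=
    (dvd_pow_self _ (by omega)).trans h2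
  rw [← ZMod.intCast_zmod_eq_zero_iff_dvd] at h3
  simpa using h3

theorem le_badNorm {g : ℕ} {F : ℚ[X]} (hF : IsHyp g F) {p : ℕ} (hp : p.Prime)
    (h : minExp g F (vp p hp) ≠ 0) : p ≤ badNorm g F := by
  classical
  set S := (finite_bad hF).toFinset with hS
  have h1 := badNorm_eq (g := g) (F := F) S (fun v => by
    rw [hS, Set.Finite.mem_toFinset]; rfl)
  rw [h1]
  have hmem : vp p hp ∈ S := by
    rw [hS, Set.Finite.mem_toFinset]
    exact h
  have h2 : Ideal.absNorm (vp p hp).asIdeal ∣ ∏ v ∈ S, Ideal.absNorm v.asIdeal :=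
    Finset.dvd_prod_of_mem _ hmem
  rw [absNorm_eq, pv_vp] at h2
  refine Nat.le_of_dvd (Finset.prod_pos fun v _ => ?_) h2
  rw [absNorm_eq]
  exact (pv_prime v).pos

/-- the theorem -/
theorem hyp_thin {g m : ℕ} (hg : 2 ≤ g) (hm : m = 2 * g + 1 ∨ m = 2 * g + 2)
    {F : Fin m → Finset ℝ} {a : Fin m → ℝ → ℝ} {c : Fin m → ℝ} (h : Adm F a c)
    (ε : ℝ) (hε : 0 < ε) : ∃ κ : ℝ, 0 < κ ∧ ∃ N₀ : ℕ, ∀ N : ℕ, N₀ ≤ N →
      ({n : ℕ | n ∈ Ioc N (2 * N) ∧ ¬ (IsHyp g ((mp (fl F a n)).map (Int.castRingHom ℚ)) ∧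
        (discNorm g ((mp (fl F a n)).map (Int.castRingHom ℚ)) : ℝ) ≤
          (badNorm g ((mp (fl F a n)).map (Int.castRingHom ℚ)) : ℝ) ^ κ)}.ncard : ℝ) ≤
        ε * (Ioc N (2 * N)).card ∧
      ({n : ℕ | n ∈ (Ioc N (2 * N)).filter Nat.Prime ∧
        ¬ (IsHyp g ((mp (fl F a n)).map (Int.castRingHom ℚ)) ∧
        (discNorm g ((mp (fl F a n)).map (Int.castRingHom ℚ)) : ℝ) ≤
          (badNorm g ((mp (fl F a n)).map (Int.castRingHom ℚ)) : ℝ) ^ κ)}.ncard : ℝ) ≤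
        ε * ((Ioc N (2 * N)).filter Nat.Prime).card := by
  classical
  obtain ⟨θ, hθ, N₁, hN₁, h1⟩ := thin0 (by omega) (UD_ne_zero (k := m) (by omega))
    (HO_mean (g := g) (m := m) (by omega) (by omega)) h ε hε
  obtain ⟨C, M, hC, hDg⟩ := val_growth (UD m) F a
  -- large N
  have hev : ∀ᶠ N : ℕ in Filter.atTop, (3 : ℝ) ≤ (N : ℝ) ^ θ ∧ 2 ^ (4 * g) * C ≤ (N : ℝ) := by
    have h3 := ((tendsto_rpow_atTop hθ).comp (tendsto_natCast_atTop_atTop (R := ℝ))).eventually_ge_atTop 3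
    have h4 := (tendsto_natCast_atTop_atTop (R := ℝ)).eventually_ge_atTop (2 ^ (4 * g) * C)
    filter_upwards [h3, h4] with N h5 h6
    exact ⟨h5, h6⟩
  obtain ⟨N₂, hN₂⟩ := Filter.eventually_atTop.1 hev
  have key : ∀ N : ℕ, max N₁ N₂ ≤ N → ∀ n ∈ Ioc N (2 * N),
      ¬ (IsHyp g ((mp (fl F a n)).map (Int.castRingHom ℚ)) ∧
        (discNorm g ((mp (fl F a n)).map (Int.castRingHom ℚ)) : ℝ) ≤
          (badNorm g ((mp (fl F a n)).map (Int.castRingHom ℚ)) : ℝ) ^ ((M + 1) / θ)) →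
      ¬ (MvPolynomial.eval (fl F a n) (UD m) ≠ 0 ∧ ∃ p : ℕ, p.Prime ∧ (N : ℝ) ^ θ ≤ p ∧
        red p (fl F a n) ∈ HO g m p) := by
    intro N hN n hn hbad
    rintro ⟨hc2, p, hp, hpN, hpZ⟩
    have hN1 : 1 ≤ N := hN₁.trans ((le_max_left _ _).trans hN)
    have hN1R : (1 : ℝ) ≤ N := by exact_mod_cast hN1
    have hN0 : (0 : ℝ) < N := by linarith
    obtain ⟨h3N, hCN⟩ := hN₂ N ((le_max_right _ _).trans hN)
    have hp2 : p ≠ 2 := by
      rintro rfl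
      have : (3 : ℝ) ≤ ((2 : ℕ) : ℝ) := h3N.trans hpN
      norm_num at this
    rw [UD_eval] at hc2
    have hF : IsHyp g ((mp (fl F a n)).map (Int.castRingHom ℚ)) :=
      isHyp_of hm (mp_monic _) (mp_natDegree _) hc2
    refine hbad ⟨hF, ?_⟩
    have h4 := le_badNorm hF hp (bad_of hg hm hp hp2 hc2 hpZ)
    have h5 := discNorm_le hm (mp_monic (fl F a n)) (mp_natDegree _) hc2
    have h6 := hDg N hN1 n hn
    rw [UD_eval] at h6
    have h7 : (((mp (fl F a n)).discr.natAbs : ℕ) : ℝ) = |(((mp (fl F a n)).discr : ℤ) : ℝ)| := by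
      rw [Nat.cast_natAbs, Int.cast_abs]
    calc (discNorm g ((mp (fl F a n)).map (Int.castRingHom ℚ)) : ℝ)
        ≤ ((2 ^ (4 * g) * (mp (fl F a n)).discr.natAbs : ℕ) : ℝ) := by exact_mod_cast h5
      _ = 2 ^ (4 * g) * |(((mp (fl F a n)).discr : ℤ) : ℝ)| := by
          push_cast
          rw [← h7]
      _ ≤ 2 ^ (4 * g) * (C * (N : ℝ) ^ M) := by gcongr
      _ = (2 ^ (4 * g) * C) * (N : ℝ) ^ M := by ring
      _ ≤ (N : ℝ) * (N : ℝ) ^ M := by gcongr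
      _ = (N : ℝ) ^ ((M : ℝ) + 1) := by
          rw [Real.rpow_add_one hN0.ne', Real.rpow_natCast, mul_comm]
      _ = ((N : ℝ) ^ θ) ^ (((M : ℝ) + 1) / θ) := by
          rw [← Real.rpow_mul hN0.le]
          congr 1
          field_simp
      _ ≤ (p : ℝ) ^ (((M : ℝ) + 1) / θ) :=
          Real.rpow_le_rpow (by positivity) hpN (by positivity)
      _ ≤ (badNorm g ((mp (fl F a n)).map (Int.castRingHom ℚ)) : ℝ) ^ (((M : ℝ) + 1) / θ) :=
          Real.rpow_le_rpow (by positivity) (by exact_mod_cast h4) (by positivity)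
  refine ⟨(M + 1) / θ, by positivity, max N₁ N₂, fun N hN => ?_⟩
  obtain ⟨k1, k2⟩ := h1 N ((le_max_left _ _).trans hN)
  exact ⟨(ncard_mono fun n hn => key N hN n hn).trans k1,
    (ncard_mono fun n hn => key N hN n (Finset.mem_of_mem_filter n hn)).trans k2⟩

end Pool.Agent.N141.TS
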