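import Mathlib

/-! # Monic polynomials with given lower coefficients -/

set_option autoImplicit false

namespace Pool.Agent.N141.TS

open Polynomial Finset

/-- the monic polynomial `X ^ k + ∑ v i X ^ i` -/
noncomputable def mp {R : Type*} [CommRing R] {k : ℕ} (v : Fin k → R) : R[X] :=
  X ^ k + ∑ i : Fin k, C (v i) * X ^ (i : ℕ)

section
variable {R : Type*} [CommRing R] {k : ℕ}

theorem low_degree (v : Fin k → R) : (∑ i : Fin k, C (v i) * X ^ (i : ℕ)).degree < ((k : ℕ) : WithBot ℕ) := by
  exact degree_sum_fin_lt v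

theorem mp_monic (v : Fin k → R) : (mp v).Monic := monic_X_pow_add (low_degree v)

theorem mp_natDegree [Nontrivial R] (v : Fin k → R) : (mp v).natDegree = k := by
  unfold mp
  rw [natDegree_add_eq_left_of_degree_lt, natDegree_X_pow]
  rw [degree_X_pow]
  exact low_degree v

theorem mp_map {S : Type*} [CommRing S] (φ : R →+* S) (v : Fin k → R) :
    (mp v).map φ = mp (fun i => φ (v i)) := by
  unfold mp
  simp [Polynomial.map_sum, Polynomial.map_mul, Polynomial.map_pow]

theorem mp_coeff (v : Fin k → R) (i : Fin k) : (mp v).coeff i = v i := by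
  unfold mp
  rw [coeff_add, coeff_X_pow, if_neg (by have := i.2; omega), zero_add, finsetSum_coeff]
  rw [Finset.sum_eq_single i]
  · simp
  · intro j _ hj
    rw [coeff_C_mul, coeff_X_pow, if_neg, mul_zero]
    intro h
    exact hj (Fin.ext h.symm)
  · simp

theorem mp_inj : Function.Injective (mp : (Fin k → R) → R[X]) := by
  intro v w h
  funext i
  rw [← mp_coeff v i, ← mp_coeff w i, h]

theorem mp_surj {Q : R[X]} (hQ : Q.Monic) (hd : Q.natDegree = k) :
    mp (fun i : Fin k => Q.coeff i) = Q := by
  have h := hQ.as_sum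
  rw [hd] at h
  unfold mp
  rw [h]
  congr 1
  rw [← h]
  exact Fin.sum_univ_eq_sum_range (fun i => C (Q.coeff i) * X ^ i) k

end

/-- discriminants and homomorphisms, monic polynomials -/
theorem discr_map_monic {R S : Type*} [CommRing R] [CommRing S] [Nontrivial S] (f : R →+* S)
    {F : R[X]} (hF : F.Monic) : (F.map f).discr = f F.discr := by
  have : Nontrivial R := f.domain_nontrivial
  by_cases h0 : F.natDegree = 0
  · have : F = 1 := eq_one_of_monic_natDegree_zero hF h0
    rw [this, Polynomial.map_one, ← C_1, discr_C, ← C_1, discr_C, map_one]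
  · have hpos : 0 < F.natDegree := Nat.pos_of_ne_zero h0
    have h1 := resultant_deriv (natDegree_pos_iff_degree_pos.mp hpos)
    have hd : (F.map f).natDegree = F.natDegree := hF.natDegree_map f
    have h2 := resultant_deriv (f := F.map f)
      (natDegree_pos_iff_degree_pos.mp (by rw [hd]; exact hpos))
    rw [derivative_map, hd, resultant_map_map, h1, (hF.map f).leadingCoeff, hF.leadingCoeff] at h2
    simp only [map_mul, map_pow, map_neg, map_one, mul_one] at h2
    have hu : IsUnit ((-1 : S) ^ (F.natDegree * (F.natDegree - 1) / 2)) :=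
      (isUnit_one.neg).pow _
    exact (hu.mul_left_cancel h2).symm

/-- the discriminant of a monic polynomial with a repeated root vanishes -/
theorem discr_eq_zero_of {K : Type*} [Field K] {F : K[X]} (hF : F.Monic) (hn : (F.natDegree : K) ≠ 0)
    {a : K} (ha : (X - C a) ^ 2 ∣ F) : F.discr = 0 := by
  have h0 : F.natDegree ≠ 0 := by
    rintro h
    rw [h] at hn
    simp at hn
  have hpos : 0 < F.natDegree := Nat.pos_of_ne_zero h0
  have h1 := resultant_deriv (natDegree_pos_iff_degree_pos.mp hpos)
  have hdeg : (derivative F).natDegree = F.natDegree - 1 := by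
    refine natDegree_eq_of_le_of_coeff_ne_zero (natDegree_derivative_le F) ?_
    rw [coeff_derivative]
    have e : F.natDegree - 1 + 1 = F.natDegree := by omega
    rw [e, hF.coeff_natDegree, one_mul]
    have e2 : ((F.natDegree - 1 : ℕ) : K) + 1 = (F.natDegree : K) := by
      rw [← Nat.cast_add_one, e]
    rw [e2]
    exact hn
  have hres : resultant F (derivative F) F.natDegree (F.natDegree - 1) = 0 := by
    rw [← hdeg, resultant_eq_zero_iff]
    refine ⟨Or.inl hF.ne_zero, fun hcop => ?_⟩
    obtain ⟨G, hG⟩ := ha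
    have hd1 : (X - C a) ∣ F := ⟨(X - C a) * G, by rw [hG]; ring⟩
    have hd2 : (X - C a) ∣ derivative F := by
      rw [hG, derivative_mul, derivative_X_sub_C_pow]
      refine dvd_add ?_ ?_
      · exact ⟨C ((2 : ℕ) : K) * G, by simp; ring⟩
      · exact ⟨(X - C a) * derivative G, by ring⟩
    exact not_isUnit_X_sub_C a (hcop.isUnit_of_dvd' hd1 hd2)
  rw [hres, hF.leadingCoeff, mul_one] at h1
  exact (mul_eq_zero.1 h1.symm).resolve_left (pow_ne_zero _ (neg_ne_zero.2 one_ne_zero))

/-- the universal discriminant -/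
noncomputable def UD (k : ℕ) : MvPolynomial (Fin k) ℤ :=
  (mp (fun i : Fin k => (MvPolynomial.X i : MvPolynomial (Fin k) ℤ))).discr

theorem UD_eval {k : ℕ} (v : Fin k → ℤ) : MvPolynomial.eval v (UD k) = (mp v).discr := by
  unfold UD
  rw [← discr_map_monic (MvPolynomial.eval v) (mp_monic _), mp_map]
  simp

theorem UD_ne_zero {k : ℕ} (hk : 1 ≤ k) : UD k ≠ 0 := by
  intro h0
  set Q : ℤ[X] := X ^ k - 1 with hQ
  have hQm : Q.Monic := by
    have h := monic_X_pow_sub_C (1 : ℤ) (by omega : k ≠ 0)
    rw [hQ]
    simpa using h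
  have hQd : Q.natDegree = k := by
    rw [hQ]
    have := natDegree_X_pow_sub_C (R := ℤ) (n := k) (r := 1)
    simpa using this
  have h1 : Q.discr = 0 := by
    rw [← mp_surj hQm hQd, ← UD_eval, h0, map_zero]
  have h2 : (Q.map (Int.castRingHom ℚ)).discr = 0 := by
    rw [discr_map_monic _ hQm, h1, map_zero]
  have hQm' : (Q.map (Int.castRingHom ℚ)).Monic := hQm.map _
  have hd : (Q.map (Int.castRingHom ℚ)).natDegree = k := by rw [hQm.natDegree_map, hQd]
  have h3 := resultant_deriv (f := Q.map (Int.castRingHom ℚ))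
    (natDegree_pos_iff_degree_pos.mp (by omega))
  rw [h2, mul_zero, hd] at h3
  have hdeg : (derivative (Q.map (Int.castRingHom ℚ))).natDegree = k - 1 := by
    have := natDegree_eq_of_degree_eq_some (degree_derivative (p := Q.map (Int.castRingHom ℚ))
      (by rw [hd]; omega))
    rw [this, hd]
  have h4 : resultant (Q.map (Int.castRingHom ℚ)) (derivative (Q.map (Int.castRingHom ℚ)))
      (Q.map (Int.castRingHom ℚ)).natDegree (derivative (Q.map (Int.castRingHom ℚ))).natDegree = 0 := by
    rw [hd, hdeg]
    exact h3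
  rw [resultant_eq_zero_iff] at h4
  apply h4.2
  have hsep : (X ^ k - 1 : ℚ[X]).Separable := by
    rw [X_pow_sub_one_separable_iff]
    exact_mod_cast (by omega : k ≠ 0)
  have e : Q.map (Int.castRingHom ℚ) = X ^ k - 1 := by rw [hQ]; simp
  rw [e]
  exact hsep

end Pool.Agent.N141.TS
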