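import Pool.Agent.N141.TS.Wei

/-! # Values at thin sequences of vectors -/

set_option autoImplicit false

namespace Pool.Agent.N141.TS

open Finset Filter MvPolynomial Pool.Agent.N666.TM Pool.Agent.Y722.HS

/-- growth of the values -/
theorem val_growth {r : ℕ} (A : MvPolynomial (Fin r) ℤ) (F : Fin r → Finset ℝ)
    (a : Fin r → ℝ → ℝ) : ∃ (C : ℝ) (m : ℕ), 1 ≤ C ∧ ∀ N : ℕ, 1 ≤ N → ∀ n ∈ Ioc N (2 * N),
      |((eval (fl F a n) A : ℤ) : ℝ)| ≤ C * (N : ℝ) ^ m := by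
  obtain ⟨C, m, hC, hfl⟩ := fl_growth F a
  obtain ⟨CA, mA, hCA, hA⟩ := growth A
  have h2m : (1 : ℝ) ≤ C * 2 ^ m := one_le_mul_of_one_le_of_one_le hC (one_le_pow₀ (by norm_num))
  refine ⟨CA * (C * 2 ^ m) ^ mA, m * mA, one_le_mul_of_one_le_of_one_le hCA (one_le_pow₀ h2m), ?_⟩
  intro N hN n hn
  rw [Finset.mem_Ioc] at hn
  have hN1 : (1 : ℝ) ≤ N := by exact_mod_cast hN
  have hX : (1 : ℝ) ≤ (C * 2 ^ m) * (N : ℝ) ^ m :=
    one_le_mul_of_one_le_of_one_le h2m (one_le_pow₀ hN1)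
  have hb : ∀ i, |(fl F a n i : ℝ)| ≤ (C * 2 ^ m) * (N : ℝ) ^ m := by
    intro i
    refine (hfl n (by omega) i).trans ?_
    have hn2 : (n : ℝ) ≤ 2 * N := by exact_mod_cast hn.2
    calc C * (n : ℝ) ^ m ≤ C * (2 * (N : ℝ)) ^ m := by gcongr
      _ = (C * 2 ^ m) * (N : ℝ) ^ m := by rw [mul_pow]; ring
  refine (hA _ _ hX hb).trans (le_of_eq ?_)
  rw [mul_pow, ← pow_mul, mul_assoc]

theorem ncard_mono {S : Finset ℕ} {P Q : ℕ → Prop} (h : ∀ n ∈ S, P n → Q n) :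
    ({n : ℕ | n ∈ S ∧ P n}.ncard : ℝ) ≤ ({n : ℕ | n ∈ S ∧ Q n}.ncard : ℝ) := by
  have h1 : {n : ℕ | n ∈ S ∧ P n}.ncard ≤ {n : ℕ | n ∈ S ∧ Q n}.ncard :=
    Set.ncard_le_ncard (fun n hn => ⟨hn.1, h n hn.1 hn.2⟩)
      ((Finset.finite_toSet S).subset fun n hn => hn.1)
  exact_mod_cast h1

/-- the conditions on the generalised polynomials -/
def Adm {r : ℕ} (F : Fin r → Finset ℝ) (a : Fin r → ℝ → ℝ) (c : Fin r → ℝ) : Prop :=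
  (∀ i, c i ∈ F i ∧ (∀ t ∈ F i, t ≤ c i) ∧ 0 < c i ∧ (∀ m : ℕ, c i ≠ m) ∧ 0 < a i (c i)) ∧
    Function.Injective c

/-- integers and primes, a local condition at a large prime -/
theorem thin0 {r : ℕ} (hr : 0 < r) {D : MvPolynomial (Fin r) ℤ} (hD : D ≠ 0)
    {Ω : ∀ p : ℕ, Set (Fin r → ZMod p)} (hM : MeanSet Ω)
    {F : Fin r → Finset ℝ} {a : Fin r → ℝ → ℝ} {c : Fin r → ℝ} (h : Adm F a c)
    (ε : ℝ) (hε : 0 < ε) : ∃ θ : ℝ, 0 < θ ∧ ∃ N₀ : ℕ, 1 ≤ N₀ ∧ ∀ N : ℕ, N₀ ≤ N →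
      ({n : ℕ | n ∈ Ioc N (2 * N) ∧ ¬ (eval (fl F a n) D ≠ 0 ∧ ∃ p : ℕ, p.Prime ∧
        (N : ℝ) ^ θ ≤ p ∧ red p (fl F a n) ∈ Ω p)}.ncard : ℝ) ≤ ε * (Ioc N (2 * N)).card ∧
      ({n : ℕ | n ∈ (Ioc N (2 * N)).filter Nat.Prime ∧ ¬ (eval (fl F a n) D ≠ 0 ∧ ∃ p : ℕ,
        p.Prime ∧ (N : ℝ) ^ θ ≤ p ∧ red p (fl F a n) ∈ Ω p)}.ncard : ℝ) ≤
        ε * ((Ioc N (2 * N)).filter Nat.Prime).card := by
  classical
  have : Nonempty (Fin r) := ⟨⟨0, hr⟩⟩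
  obtain ⟨⟨κ₁, hκ₁, hw₁⟩, ⟨κ₂, hκ₂, hw₂⟩⟩ := fl_well h.1 h.2
  obtain ⟨θ₁, hθ₁, N₁, h₁⟩ := core0 hD hM hκ₁ hw₁ ε hε
  obtain ⟨θ₂, hθ₂, N₂, h₂⟩ := core0 hD hM hκ₂ hw₂ ε hε
  have hmono : ∀ {N : ℕ} {θ θ' : ℝ} {n : ℕ}, 1 ≤ N → θ ≤ θ' →
      ¬ (eval (fl F a n) D ≠ 0 ∧ ∃ p : ℕ, p.Prime ∧ (N : ℝ) ^ θ ≤ p ∧ red p (fl F a n) ∈ Ω p) →
      ¬ (eval (fl F a n) D ≠ 0 ∧ ∃ p : ℕ, p.Prime ∧ (N : ℝ) ^ θ' ≤ p ∧ red p (fl F a n) ∈ Ω p) := by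
    intro N θ θ' n hN hle hnot
    rintro ⟨h1, p, hp, h2, h3⟩
    exact hnot ⟨h1, p, hp, (Real.rpow_le_rpow_of_exponent_le (by exact_mod_cast hN) hle).trans h2, h3⟩
  refine ⟨min θ₁ θ₂, lt_min hθ₁ hθ₂, max (max N₁ N₂) 1, le_max_right _ _, fun N hN => ⟨?_, ?_⟩⟩
  · have hN1 : N₁ ≤ N := (le_max_left _ _).trans ((le_max_left _ _).trans hN)
    have hN' : 1 ≤ N := (le_max_right _ _).trans hN
    exact (ncard_mono fun n _ => hmono hN' (min_le_left _ _)).trans (h₁ N hN1)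
  · have hN2 : N₂ ≤ N := (le_max_right _ _).trans ((le_max_left _ _).trans hN)
    have hN' : 1 ≤ N := (le_max_right _ _).trans hN
    exact (ncard_mono fun n _ => hmono hN' (min_le_right _ _)).trans (h₂ N hN2)

/-- integers and primes, the poles -/
theorem thin {r : ℕ} (hr : 0 < r) {A D : MvPolynomial (Fin r) ℤ} (hD : D ≠ 0) (hM : MeanPoles A D)
    {F : Fin r → Finset ℝ} {a : Fin r → ℝ → ℝ} {c : Fin r → ℝ} (h : Adm F a c)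
    (ε : ℝ) (hε : 0 < ε) : ∃ σ : ℝ, 0 ≤ σ ∧ ∃ N₀ : ℕ, ∀ N : ℕ, N₀ ≤ N →
      ({n : ℕ | n ∈ Ioc N (2 * N) ∧ ¬ Big σ (eval (fl F a n) A) (eval (fl F a n) D)}.ncard : ℝ) ≤
        ε * (Ioc N (2 * N)).card ∧
      ({n : ℕ | n ∈ (Ioc N (2 * N)).filter Nat.Prime ∧
        ¬ Big σ (eval (fl F a n) A) (eval (fl F a n) D)}.ncard : ℝ) ≤
        ε * ((Ioc N (2 * N)).filter Nat.Prime).card := by
  classical
  obtain ⟨θ, hθ, N₁, hN₁, h1⟩ := thin0 hr hD (Ω := ZP A D) hM h ε hε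
  obtain ⟨CA, mA, hCA, hA⟩ := val_growth A F a
  obtain ⟨CD, mD, hCD, hDg⟩ := val_growth D F a
  set C := max CA CD with hC
  set m := max mA mD with hm
  have key : ∀ N : ℕ, max N₁ (⌈C⌉₊) ≤ N → ∀ n ∈ Ioc N (2 * N),
      ¬ Big (2 * (1 + m) / θ) (eval (fl F a n) A) (eval (fl F a n) D) →
      ¬ (eval (fl F a n) D ≠ 0 ∧ ∃ p : ℕ, p.Prime ∧ (N : ℝ) ^ θ ≤ p ∧
        red p (fl F a n) ∈ ZP A D p) := by
    intro N hN n hn hbad
    rintro ⟨hc2, p, hp3, hpN, hpZ⟩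
    have hN1 : 1 ≤ N := hN₁.trans ((le_max_left _ _).trans hN)
    have hN1R : (1 : ℝ) ≤ N := by exact_mod_cast hN1
    have hN0 : (0 : ℝ) < N := by linarith
    have hCN : C ≤ N := (Nat.le_ceil C).trans (by exact_mod_cast (le_max_right _ _).trans hN)
    have hpZ' : aeval (fun i => (fl F a n i : ZMod p)) D = 0 ∧
      aeval (fun i => (fl F a n i : ZMod p)) A ≠ 0 := hpZ
    rw [eval_red, eval_red, ZMod.intCast_zmod_eq_zero_iff_dvd, Ne,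
      ZMod.intCast_zmod_eq_zero_iff_dvd] at hpZ'
    apply hbad
    have hC1 : 1 ≤ C := hCA.trans (le_max_left _ _)
    have hpm : (1 : ℝ) ≤ (N : ℝ) ^ m := one_le_pow₀ hN1R
    refine ⟨hc2, p, hp3, hpZ'.1, hpZ'.2, C * (N : ℝ) ^ m,
      one_le_mul_of_one_le_of_one_le hC1 hpm, ?_, ?_, ?_⟩
    · refine (hA N hN1 n hn).trans ?_
      exact mul_le_mul (le_max_left _ _) (pow_le_pow_right₀ hN1R (le_max_left _ _)) (by positivity)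
        (by linarith)
    · refine (hDg N hN1 n hn).trans ?_
      exact mul_le_mul (le_max_right _ _) (pow_le_pow_right₀ hN1R (le_max_right _ _)) (by positivity)
        (by linarith)
    · have h1 : Real.log (C * (N : ℝ) ^ m) ≤ (1 + m) * Real.log N := by
        rw [Real.log_mul (by positivity) (by positivity), Real.log_pow]
        have := Real.log_le_log (by linarith) hCN
        linarith
      have h2 : θ * Real.log N ≤ Real.log p := by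
        rw [← Real.log_rpow hN0]
        exact Real.log_le_log (by positivity) hpN
      calc 2 * Real.log (C * (N : ℝ) ^ m) ≤ 2 * ((1 + m) * Real.log N) := by linarith
        _ = 2 * (1 + m) / θ * (θ * Real.log N) := by field_simp
        _ ≤ 2 * (1 + m) / θ * Real.log p := mul_le_mul_of_nonneg_left h2 (by positivity)
  refine ⟨2 * (1 + m) / θ, by positivity, max N₁ (⌈C⌉₊), fun N hN => ?_⟩
  obtain ⟨k1, k2⟩ := h1 N ((le_max_left _ _).trans hN)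
  exact ⟨(ncard_mono fun n hn => key N hN n hn).trans k1,
    (ncard_mono fun n hn => key N hN n (Finset.mem_of_mem_filter n hn)).trans k2⟩

end Pool.Agent.N141.TS
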