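import Pool.Agent.N141.TS.Thin

/-! # Values at thin sequences of vectors, a pole above five -/

set_option autoImplicit false

namespace Pool.Agent.N141.TS

open Finset Filter MvPolynomial Pool.Agent.N666.TM Pool.Agent.Y722.HS

/-- one large prime divisor `p ≥ 5` of the second integer which does not divide the first -/
def Big5 (σ : ℝ) (a b : ℤ) : Prop :=
  b ≠ 0 ∧ ∃ p : ℕ, p.Prime ∧ 5 ≤ p ∧ (p : ℤ) ∣ b ∧ ¬ (p : ℤ) ∣ a ∧
    ∃ H : ℝ, |(a : ℝ)| ≤ H ∧ |(b : ℝ)| ≤ H ∧ 2 * Real.log H ≤ σ * Real.log p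

theorem thin5 {r : ℕ} (hr : 0 < r) {A D : MvPolynomial (Fin r) ℤ} (hD : D ≠ 0) (hM : MeanPoles A D)
    {F : Fin r → Finset ℝ} {a : Fin r → ℝ → ℝ} {c : Fin r → ℝ} (h : Adm F a c)
    (ε : ℝ) (hε : 0 < ε) : ∃ σ : ℝ, 0 ≤ σ ∧ ∃ N₀ : ℕ, ∀ N : ℕ, N₀ ≤ N →
      ({n : ℕ | n ∈ Ioc N (2 * N) ∧ ¬ Big5 σ (eval (fl F a n) A) (eval (fl F a n) D)}.ncard : ℝ) ≤
        ε * (Ioc N (2 * N)).card ∧
      ({n : ℕ | n ∈ (Ioc N (2 * N)).filter Nat.Prime ∧
        ¬ Big5 σ (eval (fl F a n) A) (eval (fl F a n) D)}.ncard : ℝ) ≤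
        ε * ((Ioc N (2 * N)).filter Nat.Prime).card := by
  classical
  obtain ⟨θ, hθ, N₁, hN₁, h1⟩ := thin0 hr hD (Ω := ZP A D) hM h ε hε
  obtain ⟨CA, mA, hCA, hA⟩ := val_growth A F a
  obtain ⟨CD, mD, hCD, hDg⟩ := val_growth D F a
  obtain ⟨N₂, hN₂⟩ := Filter.eventually_atTop.1
    (((tendsto_rpow_atTop hθ).comp (tendsto_natCast_atTop_atTop (R := ℝ))).eventually_ge_atTop 5)
  set C := max CA CD with hC
  set m := max mA mD with hm
  have key : ∀ N : ℕ, max N₁ (max ⌈C⌉₊ N₂) ≤ N → ∀ n ∈ Ioc N (2 * N),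
      ¬ Big5 (2 * (1 + m) / θ) (eval (fl F a n) A) (eval (fl F a n) D) →
      ¬ (eval (fl F a n) D ≠ 0 ∧ ∃ p : ℕ, p.Prime ∧ (N : ℝ) ^ θ ≤ p ∧
        red p (fl F a n) ∈ ZP A D p) := by
    intro N hN n hn hbad
    rintro ⟨hc2, p, hp3, hpN, hpZ⟩
    have hN1 : 1 ≤ N := hN₁.trans ((le_max_left _ _).trans hN)
    have hN1R : (1 : ℝ) ≤ N := by exact_mod_cast hN1
    have hN0 : (0 : ℝ) < N := by linarith
    have hNC : ⌈C⌉₊ ≤ N := (le_max_left _ _).trans ((le_max_right _ _).trans hN)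
    have hCN : C ≤ N := (Nat.le_ceil C).trans (by exact_mod_cast hNC)
    have h5N : (5 : ℝ) ≤ (N : ℝ) ^ θ := hN₂ N ((le_max_right _ _).trans ((le_max_right _ _).trans hN))
    have h5p : 5 ≤ p := by exact_mod_cast h5N.trans hpN
    have hpZ' : aeval (fun i => (fl F a n i : ZMod p)) D = 0 ∧
      aeval (fun i => (fl F a n i : ZMod p)) A ≠ 0 := hpZ
    rw [eval_red, eval_red, ZMod.intCast_zmod_eq_zero_iff_dvd, Ne,
      ZMod.intCast_zmod_eq_zero_iff_dvd] at hpZ'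
    apply hbad
    have hC1 : 1 ≤ C := hCA.trans (le_max_left _ _)
    have hpm : (1 : ℝ) ≤ (N : ℝ) ^ m := one_le_pow₀ hN1R
    refine ⟨hc2, p, hp3, h5p, hpZ'.1, hpZ'.2, C * (N : ℝ) ^ m, ?_, ?_, ?_⟩
    · refine (hA N hN1 n hn).trans ?_
      exact mul_le_mul (le_max_left _ _) (pow_le_pow_right₀ hN1R (le_max_left _ _)) (by positivity)
        (by linarith)
    · refine (hDg N hN1 n hn).trans ?_
      exact mul_le_mul (le_max_right _ _) (pow_le_pow_right₀ hN1R (le_max_right _ _)) (by positivity)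
        (by linarith)
    · have h1 : Real.log (C * (N : ℝ) ^ m) ≤ (1 + m) * Real.log N := by
        rw [Real.log_mul (by positivity) (by positivity), Real.log_pow]
        have := Real.log_le_log (by linarith) hCN
        linarith
      have h2 : θ * Real.log N ≤ Real.log p := by
        rw [← Real.log_rpow hN0]
        exact Real.log_le_log (by positivity) hpN
      calc 2 * Real.log (C * (N : ℝ) ^ m) ≤ 2 * ((1 + m) * Real.log N) := by linarith
        _ = 2 * (1 + m) / θ * (θ * Real.log N) := by field_simp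
        _ ≤ 2 * (1 + m) / θ * Real.log p := mul_le_mul_of_nonneg_left h2 (by positivity)
  refine ⟨2 * (1 + m) / θ, by positivity, max N₁ (max ⌈C⌉₊ N₂), fun N hN => ?_⟩
  obtain ⟨k1, k2⟩ := h1 N ((le_max_left _ _).trans hN)
  exact ⟨(ncard_mono fun n hn => key N hN n hn).trans k1,
    (ncard_mono fun n hn => key N hN n (Finset.mem_of_mem_filter n hn)).trans k2⟩

end Pool.Agent.N141.TS
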