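import Pool.Agent.N141.TS.Core

/-! # The universal family has many poles modulo the primes -/

set_option autoImplicit false

namespace Pool.Agent.N141.TS

open Finset Filter MvPolynomial

/-- a criterion for the mean -/
theorem mean_of {r : ℕ} {Ω : ∀ p : ℕ, Set (Fin r → ZMod p)} {δ : ℝ} (hδ : 0 < δ) (p₀ : ℕ)
    (h : ∀ p : ℕ, p.Prime → p₀ < p → δ * (1 / (p : ℝ)) ≤ ((Ω p).ncard : ℝ) / (p : ℝ) ^ r) :
    MeanSet Ω := by
  classical
  obtain ⟨C, hC⟩ := Pool.Agent.Erdos456.Mert.mertens_inv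
  refine ⟨δ, δ * (2 * C + p₀), hδ, fun y x hy hyx => ?_⟩
  have h1 : ∑ p ∈ (Ioc y x).filter Nat.Prime, (δ * (1 / (p : ℝ)) - if p ≤ p₀ then δ else 0) ≤
      ∑ p ∈ (Ioc y x).filter Nat.Prime, ((Ω p).ncard : ℝ) / (p : ℝ) ^ r := by
    refine Finset.sum_le_sum fun p hp => ?_
    rw [Finset.mem_filter, Finset.mem_Ioc] at hp
    have hp1 : (1 : ℝ) ≤ p := by exact_mod_cast (by omega : 1 ≤ p)
    split_ifs with hpp
    · have h2 : δ * (1 / (p : ℝ)) ≤ δ := by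
        have : 1 / (p : ℝ) ≤ 1 := by rw [div_le_one (by linarith)]; exact hp1
        nlinarith
      have h3 : 0 ≤ ((Ω p).ncard : ℝ) / (p : ℝ) ^ r := by positivity
      linarith
    · rw [sub_zero]
      exact h p hp.2 (by omega)
  refine le_trans ?_ h1
  rw [Finset.sum_sub_distrib]
  have h2 : ∑ p ∈ (Ioc y x).filter Nat.Prime, (if p ≤ p₀ then δ else 0) ≤ δ * p₀ := by
    rw [← Finset.sum_filter, Finset.sum_const, nsmul_eq_mul, mul_comm]
    refine mul_le_mul_of_nonneg_left ?_ hδ.le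
    have h3 : (((Ioc y x).filter Nat.Prime).filter fun p => p ≤ p₀) ⊆ Icc 1 p₀ := by
      intro p hp
      rw [Finset.mem_filter, Finset.mem_filter, Finset.mem_Ioc] at hp
      rw [Finset.mem_Icc]
      omega
    have h4 := Finset.card_le_card h3
    rw [Nat.card_Icc] at h4
    exact_mod_cast (by omega : (((Ioc y x).filter Nat.Prime).filter fun p => p ≤ p₀).card ≤ p₀)
  have hsplit : ∑ p ∈ (Icc 1 x).filter Nat.Prime, (1 : ℝ) / p =
      ∑ p ∈ (Icc 1 y).filter Nat.Prime, (1 : ℝ) / p +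
      ∑ p ∈ (Ioc y x).filter Nat.Prime, (1 : ℝ) / p := by
    rw [← Finset.sum_union]
    · congr 1
      ext p
      simp only [Finset.mem_filter, Finset.mem_Icc, Finset.mem_Ioc, Finset.mem_union]
      constructor
      · rintro ⟨⟨h1, h2⟩, h3⟩
        rcases le_or_gt p y with h4 | h4
        · exact Or.inl ⟨⟨h1, h4⟩, h3⟩
        · exact Or.inr ⟨⟨h4, h2⟩, h3⟩
      · rintro (⟨⟨h1, h2⟩, h3⟩ | ⟨⟨h1, h2⟩, h3⟩)
        · exact ⟨⟨h1, by omega⟩, h3⟩
        · exact ⟨⟨by omega, h2⟩, h3⟩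
    · rw [Finset.disjoint_left]
      intro p hp hp'
      rw [Finset.mem_filter, Finset.mem_Icc] at hp
      rw [Finset.mem_filter, Finset.mem_Ioc] at hp'
      omega
  have hx := (abs_le.1 (hC x (by omega))).1
  have hy' := (abs_le.1 (hC y hy)).2
  rw [← Finset.mul_sum]
  have h5 : Real.log (Real.log x) - Real.log (Real.log y) - 2 * C ≤
      ∑ p ∈ (Ioc y x).filter Nat.Prime, (1 : ℝ) / p := by linarith
  have h6 := mul_le_mul_of_nonneg_left h5 hδ.le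
  linarith

/-- the invariant `6912 a³ / (4 a³ + 27 b²)` of `y² = x³ + a x + b` -/
theorem mean_wei : MeanPoles (C 6912 * X 0 ^ 3 : MvPolynomial (Fin 2) ℤ)
    (C 4 * X 0 ^ 3 + C 27 * X 1 ^ 2) := by
  refine mean_of (Ω := ZP (C 6912 * X 0 ^ 3 : MvPolynomial (Fin 2) ℤ)
    (C 4 * X 0 ^ 3 + C 27 * X 1 ^ 2)) (δ := 1 / 2) (by norm_num) 3 fun p hp h3 => ?_
  have h5 : 5 ≤ p := by
    by_contra hcon
    have h4 : p = 4 := by omega
    rw [h4] at hp
    exact absurd hp (by norm_num)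
  have h1 := wei hp h5
  have h2 : ((p : ℝ) - 1) ≤ ((ZP (C 6912 * X 0 ^ 3 : MvPolynomial (Fin 2) ℤ)
      (C 4 * X 0 ^ 3 + C 27 * X 1 ^ 2) p).ncard : ℝ) := by
    have h4 : p ≤ (ZP (C 6912 * X 0 ^ 3 : MvPolynomial (Fin 2) ℤ)
      (C 4 * X 0 ^ 3 + C 27 * X 1 ^ 2) p).ncard + 1 := by
      unfold ZP
      omega
    have : (p : ℝ) ≤ ((ZP (C 6912 * X 0 ^ 3 : MvPolynomial (Fin 2) ℤ)
      (C 4 * X 0 ^ 3 + C 27 * X 1 ^ 2) p).ncard : ℝ) + 1 := by exact_mod_cast h4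
    linarith
  have hp5 : (5 : ℝ) ≤ p := by exact_mod_cast h5
  have e : (1 : ℝ) / 2 * (1 / p) = (p / 2) / (p : ℝ) ^ 2 := by field_simp
  rw [e]
  gcongr
  linarith

end Pool.Agent.N141.TS
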